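import Pool.Agent.Helper26.UM.Stmts

/-! Row UU of project UM: a small set outside which no small set has large measure. -/

set_option autoImplicit false

namespace Pool.Agent.Helper48.UM

open Cardinal Set Pool.Agent.Helper63.INV Pool.Agent.Helper26.UM

universe u v

theorem st_UU : ST_UU.{u, v} := by
  classical
  intro G _ X _ hX hM
  obtain ⟨S, hS⟩ : ∃ S : Set (Set (Set X)), S = {F : Set (Set X) | F.PairwiseDisjoint id ∧
      ∀ Z : Set X, Z ∈ F → #Z < #X ∧ ∃ M : Set X → ℝ, IsIM G M ∧ 1 / 12 ≤ M Z} := ⟨_, rfl⟩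
  obtain ⟨F, hF⟩ := zorn_subset S (by
    intro c hc hch
    refine ⟨⋃₀ c, ?_, fun s hs => subset_sUnion_of_mem hs⟩
    rw [hS]
    refine ⟨?_, ?_⟩
    · rintro Z ⟨a, ha, hZ⟩ W ⟨b, hb, hW⟩ hne
      rcases hch.total ha hb with h | h
      · have h1 := hc hb
        rw [hS] at h1
        exact h1.1 (h hZ) hW hne
      · have h1 := hc ha
        rw [hS] at h1
        exact h1.1 hZ (h hW) hne
    · rintro Z ⟨a, ha, hZ⟩
      have h1 := hc ha
      rw [hS] at h1
      exact h1.2 Z hZ)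
  have hFS : F.PairwiseDisjoint id ∧
      ∀ Z : Set X, Z ∈ F → #Z < #X ∧ ∃ M : Set X → ℝ, IsIM G M ∧ 1 / 12 ≤ M Z := by
    have h1 := hF.prop
    rw [hS] at h1
    exact h1
  have hcard : #F < #X := by
    by_contra hcon
    obtain ⟨f⟩ : Nonempty (X ↪ F) := Cardinal.le_def _ _ |>.1 (not_lt.1 hcon)
    refine hM ⟨fun x => (f x).1, fun x => ((hFS.2 _ (f x).2).2).choose, ?_, ?_, ?_⟩
    · intro x y hxy
      exact hFS.1 (f x).2 (f y).2 fun h => hxy (f.injective (Subtype.ext h))
    · intro x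
      exact ((hFS.2 _ (f x).2).2).choose_spec.1
    · intro x
      exact ((hFS.2 _ (f x).2).2).choose_spec.2
  refine ⟨⋃ Z : F, Z.1, ?_, ?_⟩
  · exact (Cardinal.card_iUnion_lt_iff_forall_of_isRegular hX hcard).2 fun Z =>
      (hFS.2 Z.1 Z.2).1
  · intro Z hZ hd M hMM
    by_contra hcon
    have hlarge : 1 / 12 ≤ M Z := not_lt.1 hcon
    have hdis : ∀ W ∈ F, Disjoint Z W := fun W hW =>
      hd.mono_right (subset_iUnion (fun Z : F => Z.1) ⟨W, hW⟩)
    have hin : insert Z F ∈ S := by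
      rw [hS]
      refine ⟨?_, ?_⟩
      · rintro A (rfl | hA) B (rfl | hB) hne
        · exact absurd rfl hne
        · exact hdis B hB
        · exact (hdis A hA).symm
        · exact hFS.1 hA hB hne
      · rintro A (rfl | hA)
        · exact ⟨hZ, M, hMM, hlarge⟩
        · exact hFS.2 A hA
    have hZF : Z ∈ F := hF.le_of_ge hin (subset_insert _ _) (mem_insert _ _)
    have hempty : Z = ∅ := disjoint_self.1 (hdis Z hZF)
    have h0 := hMM.2.2.1 ∅ ∅ (disjoint_empty _)
    rw [union_empty] at h0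
    rw [hempty] at hlarge
    linarith

end Pool.Agent.Helper48.UM
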